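import Mathlib

/-!
# Analytic hedgehogs of `ℝ³` which are not Gauss infinitesimally rigid

For every `m ≥ 2` the function `f = supp m` on the unit sphere,
`f (x, y, z) = ∑ j ≤ m, binom(m, j) / (1 - 2 j) * z ^ (2 j) * (2 m - z²) ^ (1/2 - j)`, is real-analytic and not the restriction
of a linear form, and with the spherical harmonic `g = Re (x + i y) ^ (2 m - 1)` the mixed curvature function `R_(f,g)`
vanishes identically, while `R_g` does not.
-/

set_option autoImplicit false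

open scoped Manifold ContDiff InnerProductSpace

namespace Pool.Agent.Results.MP_abe51b_gt.NonRigidAnalytic

/-- Euclidean 3-space -/
abbrev E3 : Type := EuclideanSpace ℝ (Fin 3)

/-- the unit sphere of Euclidean 3-space -/
abbrev S2 : Type := Metric.sphere (0 : E3) 1

/-- the second derivative of `h` at the unit vector `u` along the great circle with the unit tangent vector `v`, that is
`∇²h(u)(v, v)`; only the values of `h` on the unit sphere are used -/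
noncomputable def hess (h : E3 → ℝ) (u v : E3) : ℝ :=
  deriv (deriv fun t : ℝ => h (Real.cos t • u + Real.sin t • v)) 0

/-- the quadratic form `(∇²h(u) + h(u) Id)(v, v)` -/
noncomputable def radii (h : E3 → ℝ) (u v : E3) : ℝ := hess h u v + h u

/-- the curvature function `R_h(u) = det (∇²h(u) + h(u) Id)`, computed in the orthonormal basis `v, w` of the tangent plane
(the entry at `(v, w)` is found from the quadratic form by polarization) -/
noncomputable def curv (h : E3 → ℝ) (u v w : E3) : ℝ :=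
  radii h u v * radii h u w -
    ((radii h u ((√2)⁻¹ • (v + w)) - radii h u ((√2)⁻¹ • (v - w))) / 2) ^ 2

/-- the mixed curvature function `R_(f,g) = (R_(f+g) - R_f - R_g) / 2` -/
noncomputable def mixed (f g : E3 → ℝ) (u v w : E3) : ℝ :=
  (curv (fun x => f x + g x) u v w - curv f u v w - curv g u v w) / 2

/-- the support function `∑ j ≤ m, binom(m, j) / (1 - 2 j) * z ^ (2 j) * p ^ (1 - 2 j)`, `p = √(2 m - z²)`, of the point `(x, y, z)`
of the unit sphere -/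
noncomputable def supp (m : ℕ) (x : E3) : ℝ :=
  √(2 * m - x 2 ^ 2) * ∑ j ∈ Finset.range (m + 1), (m.choose j : ℝ) / (1 - 2 * j) * (x 2 / √(2 * m - x 2 ^ 2)) ^ (2 * j)

/-- the spherical harmonic `Re (x + i y) ^ (2 m - 1)` -/
noncomputable def harm (m : ℕ) (x : E3) : ℝ := (((x 0 : ℂ) + (x 1 : ℂ) * Complex.I) ^ (2 * m - 1)).re

/-! ### the polynomial -/

noncomputable def P (M : ℕ) (t : ℝ) : ℝ := ∑ j ∈ Finset.range (M + 2), ((M + 1).choose j : ℝ) / (1 - 2 * j) * t ^ (2 * j)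

noncomputable def P1 (M : ℕ) (t : ℝ) : ℝ :=
  ∑ j ∈ Finset.range (M + 2), ((M + 1).choose j : ℝ) / (1 - 2 * j) * ((2 * j : ℕ) * t ^ (2 * j - 1))

theorem odd_ne (j : ℕ) : (1 : ℝ) - 2 * j ≠ 0 := by
  intro h
  have h2 : (1 : ℝ) = ((2 * j : ℕ) : ℝ) := by push_cast; linarith
  have h3 : (1 : ℕ) = 2 * j := by exact_mod_cast h2
  omega

theorem P_deriv (M : ℕ) (t : ℝ) : HasDerivAt (P M) (P1 M t) t := by
  unfold P P1
  apply HasDerivAt.fun_sum
  intro j _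
  exact (hasDerivAt_pow (2 * j) t).const_mul _

theorem P1_deriv (M : ℕ) (t : ℝ) : HasDerivAt (P1 M) (-(2 * (M + 1)) * (1 + t ^ 2) ^ M) t := by
  have h1 : HasDerivAt (P1 M) (∑ j ∈ Finset.range (M + 2), ((M + 1).choose j : ℝ) / (1 - 2 * j) *
      ((2 * j : ℕ) * (((2 * j - 1 : ℕ) : ℝ) * t ^ (2 * j - 1 - 1)))) t := by
    unfold P1
    apply HasDerivAt.fun_sum
    intro j _
    exact ((hasDerivAt_pow (2 * j - 1) t).const_mul _).const_mul _
  refine h1.congr_deriv ?_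
  rw [Finset.sum_range_succ']
  have h0 : ((M + 1).choose 0 : ℝ) / (1 - 2 * (0 : ℕ)) * ((2 * 0 : ℕ) * (((2 * 0 - 1 : ℕ) : ℝ) * t ^ (2 * 0 - 1 - 1))) = 0 := by simp
  rw [h0, add_zero, add_comm (1 : ℝ) (t ^ 2), add_pow, Finset.mul_sum]
  refine Finset.sum_congr rfl fun i _ => ?_
  have h2 : 2 * (i + 1) - 1 = 2 * i + 1 := by omega
  have h3 : 2 * (i + 1) - 1 - 1 = 2 * i := by omega
  have hc : ((M + 1).choose (i + 1) : ℝ) * (i + 1) = (M + 1) * (M.choose i : ℝ) := by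
    have := Nat.add_one_mul_choose_eq M i
    exact_mod_cast this.symm
  rw [h3, h2, one_pow, mul_one, ← pow_mul]
  have hne := odd_ne (i + 1)
  push_cast at hne ⊢
  have key : ∀ C T : ℝ, C / (1 - 2 * ((i : ℝ) + 1)) * (2 * ((i : ℝ) + 1) * ((2 * (i : ℝ) + 1) * T)) = -2 * (C * ((i : ℝ) + 1)) * T := by
    intro C T
    field_simp
    ring
  rw [key, hc]
  ring

theorem P_id (M : ℕ) (t : ℝ) : P M t - t * P1 M t = (1 + t ^ 2) ^ (M + 1) := by
  unfold P P1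
  rw [add_comm (1 : ℝ) (t ^ 2), add_pow, Finset.mul_sum, ← Finset.sum_sub_distrib]
  refine Finset.sum_congr rfl fun j _ => ?_
  have hne := odd_ne j
  rw [one_pow, mul_one, ← pow_mul]
  rcases j with _ | j
  · simp
  · have h2 : t * ((2 * (j + 1) : ℕ) * t ^ (2 * (j + 1) - 1)) = (2 * (j + 1) : ℕ) * t ^ (2 * (j + 1)) := by
      have h3 : 2 * (j + 1) = (2 * (j + 1) - 1) + 1 := by omega
      conv_rhs => rw [h3, pow_succ]
      have h4 : 2 * (j + 1) - 1 + 1 = 2 * (j + 1) := by omega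
      rw [h4]
      ring
    have h5 : t * (((M + 1).choose (j + 1) : ℝ) / (1 - 2 * ((j + 1 : ℕ) : ℝ)) * ((2 * (j + 1) : ℕ) * t ^ (2 * (j + 1) - 1))) =
        ((M + 1).choose (j + 1) : ℝ) / (1 - 2 * ((j + 1 : ℕ) : ℝ)) * ((2 * (j + 1) : ℕ) * t ^ (2 * (j + 1))) := by
      rw [← h2]; ring
    rw [h5]
    push_cast at hne ⊢
    field_simp

/-! ### the profile -/

noncomputable def phi (M : ℕ) (s : ℝ) : ℝ := √(2 * (M + 1) - s ^ 2) * P M (s / √(2 * (M + 1) - s ^ 2))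

noncomputable def phi1 (M : ℕ) (s : ℝ) : ℝ :=
  -(s / √(2 * (M + 1) - s ^ 2)) * P M (s / √(2 * (M + 1) - s ^ 2)) +
    2 * (M + 1) / √(2 * (M + 1) - s ^ 2) ^ 2 * P1 M (s / √(2 * (M + 1) - s ^ 2))

noncomputable def lam (M : ℕ) (s : ℝ) : ℝ :=
  2 * (M + 1) / √(2 * (M + 1) - s ^ 2) * (2 * (M + 1) / √(2 * (M + 1) - s ^ 2) ^ 2) ^ (M + 1)

theorem p_deriv (A s : ℝ) (h : s ^ 2 < A) : HasDerivAt (fun s : ℝ => √(A - s ^ 2)) (-(s / √(A - s ^ 2))) s := by
  have h1 : HasDerivAt (fun s : ℝ => A - s ^ 2) (-(2 * s)) s := by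
    have := (hasDerivAt_pow 2 s).const_sub A
    refine this.congr_deriv ?_
    norm_num
  have h2 := h1.sqrt (by linarith : A - s ^ 2 ≠ 0)
  refine h2.congr_deriv ?_
  have hp : √(A - s ^ 2) ≠ 0 := (Real.sqrt_pos.2 (by linarith)).ne'
  field_simp

theorem t_deriv (A s : ℝ) (h : s ^ 2 < A) : HasDerivAt (fun s : ℝ => s / √(A - s ^ 2)) (A / √(A - s ^ 2) ^ 3) s := by
  have hpos : 0 < A - s ^ 2 := by linarith
  have hp : √(A - s ^ 2) ≠ 0 := (Real.sqrt_pos.2 hpos).ne'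
  have h2 := (hasDerivAt_id s).div (p_deriv A s h) hp
  refine h2.congr_deriv ?_
  have hq : √(A - s ^ 2) ^ 2 = A - s ^ 2 := Real.sq_sqrt hpos.le
  simp only [id]
  field_simp
  rw [hq]
  ring

theorem phi_deriv (M : ℕ) (s : ℝ) (h : s ^ 2 < 2 * (M + 1)) : HasDerivAt (phi M) (phi1 M s) s := by
  have hpos : (0 : ℝ) < 2 * (M + 1) - s ^ 2 := by linarith
  have hp : √(2 * (M + 1) - s ^ 2) ≠ 0 := (Real.sqrt_pos.2 hpos).ne'
  have h1 := (p_deriv (2 * (M + 1)) s h).mul ((P_deriv M _).comp s (t_deriv (2 * (M + 1)) s h))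
  refine h1.congr_deriv ?_
  unfold phi1
  simp only [Function.comp]
  field_simp

theorem phi1_deriv (M : ℕ) (s : ℝ) (h : s ^ 2 < 2 * (M + 1)) :
    HasDerivAt (phi1 M) (-(2 * (M + 1) + 1) * lam M s / √(2 * (M + 1) - s ^ 2) ^ 2) s := by
  have hpos : (0 : ℝ) < 2 * (M + 1) - s ^ 2 := by linarith
  have hp0 : 0 < √(2 * (M + 1) - s ^ 2) := Real.sqrt_pos.2 hpos
  have hp : √(2 * (M + 1) - s ^ 2) ≠ 0 := hp0.ne'
  have hq : √(2 * (M + 1) - s ^ 2) ^ 2 = 2 * (M + 1) - s ^ 2 := Real.sq_sqrt hpos.le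
  have ht := t_deriv (2 * (M + 1)) s h
  have hP := (P_deriv M _).comp s ht
  have hP1 := (P1_deriv M _).comp s ht
  have h1 := ht.neg.mul hP
  have h2 := ((p_deriv (2 * (M + 1)) s h).pow 2)
  have h3 := (h2.inv (pow_ne_zero 2 hp)).const_mul (2 * ((M : ℝ) + 1))
  have h4 := h3.mul hP1
  have h5 := h1.add h4
  have e : (phi1 M) = fun s => (-(s / √(2 * (M + 1) - s ^ 2))) * (P M (s / √(2 * (M + 1) - s ^ 2))) +
      2 * ((M : ℝ) + 1) * (√(2 * (M + 1) - s ^ 2) ^ 2)⁻¹ * P1 M (s / √(2 * (M + 1) - s ^ 2)) := by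
    funext s
    unfold phi1
    ring
  rw [e]
  refine h5.congr_deriv ?_
  have hid := P_id M (s / √(2 * (M + 1) - s ^ 2))
  unfold lam
  have hX : 1 + (s / √(2 * (M + 1) - s ^ 2)) ^ 2 = 2 * (M + 1) / √(2 * (M + 1) - s ^ 2) ^ 2 := by
    field_simp
    rw [hq]
    ring
  have hY : ∀ a : ℝ, a ^ (M + 1) = a ^ M * a := fun a => pow_succ a M
  rw [hX, hY] at hid
  simp only [Function.comp, Pi.neg_apply, Pi.pow_apply, Pi.inv_apply]
  rw [hX, hY]
  generalize (2 * ((M : ℝ) + 1) / √(2 * (M + 1) - s ^ 2) ^ 2) ^ M = Y at hid ⊢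
  have hPP := eq_add_of_sub_eq' hid
  rw [hPP]
  generalize P1 M (s / √(2 * (M + 1) - s ^ 2)) = Q
  generalize √(2 * ((M : ℝ) + 1) - s ^ 2) = p at hp hp0 hq ⊢
  field_simp
  ring

/-! ### second derivatives along great circles -/

def Two (h : E3 → ℝ) (u v : E3) (d : ℝ) : Prop :=
  ∃ h1 : ℝ → ℝ, (∀ t, HasDerivAt (fun t : ℝ => h (Real.cos t • u + Real.sin t • v)) (h1 t) t) ∧ HasDerivAt h1 d 0

theorem Two.hess {h : E3 → ℝ} {u v : E3} {d : ℝ} (H : Two h u v d) : NonRigidAnalytic.hess h u v = d := by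
  obtain ⟨h1, a, b⟩ := H
  unfold NonRigidAnalytic.hess
  have e : (deriv fun t : ℝ => h (Real.cos t • u + Real.sin t • v)) = h1 := by
    funext t
    exact (a t).deriv
  rw [e]
  exact b.deriv

theorem Two.add {f g : E3 → ℝ} {u v : E3} {c d : ℝ} (F : Two f u v c) (G : Two g u v d) : Two (fun x => f x + g x) u v (c + d) := by
  obtain ⟨f1, a, b⟩ := F
  obtain ⟨g1, a', b'⟩ := G
  exact ⟨fun t => f1 t + g1 t, fun t => (a t).add (a' t), b.add b'⟩

theorem cs_deriv (a b t : ℝ) : HasDerivAt (fun t : ℝ => Real.cos t * a + Real.sin t * b) (-Real.sin t * a + Real.cos t * b) t :=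
  ((Real.hasDerivAt_cos t).mul_const a).add ((Real.hasDerivAt_sin t).mul_const b)

theorem cs_deriv2 (a b t : ℝ) : HasDerivAt (fun t : ℝ => -Real.sin t * a + Real.cos t * b) (-Real.cos t * a + -Real.sin t * b) t :=
  ((Real.hasDerivAt_sin t).neg.mul_const a).add ((Real.hasDerivAt_cos t).mul_const b)

theorem supp_two (M : ℕ) (hM : 1 ≤ M) (u v : E3) (hu : |u 2| ≤ 1) (hv : |v 2| ≤ 1) :
    Two (supp (M + 1)) u v (-(2 * (M + 1) + 1) * lam M (u 2) / √(2 * (M + 1) - u 2 ^ 2) ^ 2 * v 2 ^ 2 - phi1 M (u 2) * u 2) := by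
  have hs : ∀ x : E3, supp (M + 1) x = phi M (x 2) := by
    intro x
    unfold supp phi P
    push_cast
    rfl
  have hz : ∀ t : ℝ, (Real.cos t * u 2 + Real.sin t * v 2) ^ 2 < 2 * ((M : ℝ) + 1) := by
    intro t
    have h1 : (1 : ℝ) ≤ M := by exact_mod_cast hM
    have h2 : u 2 ^ 2 ≤ 1 := (sq_le_one_iff_abs_le_one _).2 hu
    have h3 : v 2 ^ 2 ≤ 1 := (sq_le_one_iff_abs_le_one _).2 hv
    have h4 := Real.sin_sq_add_cos_sq t
    nlinarith [sq_nonneg (Real.cos t * v 2 - Real.sin t * u 2)]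
  refine ⟨fun t => phi1 M (Real.cos t * u 2 + Real.sin t * v 2) * (-Real.sin t * u 2 + Real.cos t * v 2), fun t => ?_, ?_⟩
  · have e : (fun t : ℝ => supp (M + 1) (Real.cos t • u + Real.sin t • v)) = fun t => phi M (Real.cos t * u 2 + Real.sin t * v 2) := by
      funext t
      rw [hs]
      simp
    rw [e]
    exact (phi_deriv M _ (hz t)).comp t (cs_deriv _ _ t)
  · have h1 := ((phi1_deriv M _ (hz 0)).comp (0 : ℝ) (cs_deriv (u 2) (v 2) 0)).mul (cs_deriv2 (u 2) (v 2) 0)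
    refine h1.congr_deriv ?_
    simp only [Function.comp, Real.cos_zero, Real.sin_zero, neg_zero, zero_mul, one_mul, add_zero, zero_add, neg_mul]
    ring

noncomputable def cc (x : E3) : ℂ := (x 0 : ℂ) + (x 1 : ℂ) * Complex.I

theorem cc_deriv (a b : ℂ) (t : ℝ) :
    HasDerivAt (fun t : ℝ => (Real.cos t : ℂ) * a + (Real.sin t : ℂ) * b) (-(Real.sin t : ℂ) * a + (Real.cos t : ℂ) * b) t := by
  have h1 := (Real.hasDerivAt_cos t).ofReal_comp
  have h2 := (Real.hasDerivAt_sin t).ofReal_comp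
  refine ((h1.mul_const a).add (h2.mul_const b)).congr_deriv ?_
  push_cast
  ring

theorem cc_deriv2 (a b : ℂ) (t : ℝ) :
    HasDerivAt (fun t : ℝ => -(Real.sin t : ℂ) * a + (Real.cos t : ℂ) * b) (-(Real.cos t : ℂ) * a + -(Real.sin t : ℂ) * b) t := by
  have h1 := (Real.hasDerivAt_cos t).ofReal_comp
  have h2 := (Real.hasDerivAt_sin t).ofReal_comp
  refine ((h2.neg.mul_const a).add (h1.mul_const b)).congr_deriv ?_
  push_cast
  ring

theorem re_deriv (F : ℝ → ℂ) (d : ℂ) (t : ℝ) (h : HasDerivAt F d t) : HasDerivAt (fun t => (F t).re) d.re t :=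
  (Complex.reCLM.hasFDerivAt.comp_hasDerivAt t h)

theorem harm_two (M : ℕ) (hM : 1 ≤ M) (u v : E3) :
    Two (harm (M + 1)) u v (((2 * M + 1 : ℕ) * (2 * M : ℕ) * cc u ^ (2 * M - 1) * cc v ^ 2 - (2 * M + 1 : ℕ) * cc u ^ (2 * M + 1) : ℂ)).re := by
  have hk : 2 * (M + 1) - 1 = 2 * M + 1 := by omega
  have hs : ∀ t : ℝ, harm (M + 1) (Real.cos t • u + Real.sin t • v) = (((Real.cos t : ℂ) * cc u + (Real.sin t : ℂ) * cc v) ^ (2 * M + 1)).re := by
    intro t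
    unfold harm cc
    rw [hk]
    congr 2
    simp
    ring
  refine ⟨fun t => (((2 * M + 1 : ℕ) : ℂ) * ((Real.cos t : ℂ) * cc u + (Real.sin t : ℂ) * cc v) ^ (2 * M) *
    (-(Real.sin t : ℂ) * cc u + (Real.cos t : ℂ) * cc v)).re, fun t => ?_, ?_⟩
  · have e : (fun t : ℝ => harm (M + 1) (Real.cos t • u + Real.sin t • v)) =
        fun t => (((Real.cos t : ℂ) * cc u + (Real.sin t : ℂ) * cc v) ^ (2 * M + 1)).re := funext hs
    rw [e]
    apply re_deriv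
    exact (cc_deriv (cc u) (cc v) t).fun_pow (2 * M + 1)
  · have h1 := (((cc_deriv (cc u) (cc v) 0).fun_pow (2 * M)).const_mul ((2 * M + 1 : ℕ) : ℂ)).mul (cc_deriv2 (cc u) (cc v) 0)
    have h2 := re_deriv _ _ _ h1
    refine h2.congr_deriv ?_
    congr 1
    simp only [Real.cos_zero, Real.sin_zero, Complex.ofReal_zero, Complex.ofReal_one, neg_zero, zero_mul, one_mul, add_zero, zero_add]
    have h3 : cc u ^ (2 * M + 1) = cc u ^ (2 * M) * cc u := pow_succ _ _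
    rw [h3]
    ring

/-! ### orthonormal frames -/

theorem frame (u v w : E3) (h : Orthonormal ℝ ![u, v, w]) :
    u 2 ^ 2 + v 2 ^ 2 + w 2 ^ 2 = 1 ∧ cc u ^ 2 + cc v ^ 2 + cc w ^ 2 = 0 ∧ (u 2 : ℂ) * cc u + (v 2 : ℂ) * cc v + (w 2 : ℂ) * cc w = 0 := by
  have h1 := orthonormal_iff_ite.1 h
  let A : Matrix (Fin 3) (Fin 3) ℝ := Matrix.of fun i j => (![u, v, w] i) j
  have h2 : A * A.transpose = 1 := by
    ext i j
    have h3 := h1 i j
    rw [Matrix.mul_apply, Matrix.one_apply, Fin.sum_univ_three]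
    rw [PiLp.inner_apply, Fin.sum_univ_three] at h3
    simp only [RCLike.inner_apply, conj_trivial] at h3
    rw [← h3]
    simp only [A, Matrix.of_apply, Matrix.transpose_apply]
    ring
  have h3 : A.transpose * A = 1 := mul_eq_one_comm.1 h2
  have e : ∀ i j : Fin 3, u i * u j + v i * v j + w i * w j = if i = j then 1 else 0 := by
    intro i j
    have h4 := congrFun (congrFun h3 i) j
    rw [Matrix.mul_apply, Matrix.one_apply, Fin.sum_univ_three] at h4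
    rw [← h4]
    rfl
  have e00 := e 0 0
  have e11 := e 1 1
  have e22 := e 2 2
  have e01 := e 0 1
  have e02 := e 0 2
  have e12 := e 1 2
  simp at e00 e11 e22 e01 e02 e12
  refine ⟨by linarith, ?_, ?_⟩
  · unfold cc
    apply Complex.ext
    · simp [pow_two]
      linarith
    · simp [pow_two]
      linarith
  · unfold cc
    apply Complex.ext
    · simp
      linarith
    · simp
      linarith

theorem norms (u v w : E3) (h : Orthonormal ℝ ![u, v, w]) :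
    |u 2| ≤ 1 ∧ |v 2| ≤ 1 ∧ |w 2| ≤ 1 ∧ |((√2)⁻¹ • (v + w)) 2| ≤ 1 ∧ |((√2)⁻¹ • (v - w)) 2| ≤ 1 := by
  obtain ⟨h1, -, -⟩ := frame u v w h
  have h2 : (√2)⁻¹ ^ 2 = (1 / 2 : ℝ) := by
    rw [inv_pow, Real.sq_sqrt (by norm_num)]
    norm_num
  refine ⟨?_, ?_, ?_, ?_, ?_⟩
  · exact (sq_le_one_iff_abs_le_one _).1 (by nlinarith [sq_nonneg (v 2), sq_nonneg (w 2)])
  · exact (sq_le_one_iff_abs_le_one _).1 (by nlinarith [sq_nonneg (u 2), sq_nonneg (w 2)])
  · exact (sq_le_one_iff_abs_le_one _).1 (by nlinarith [sq_nonneg (v 2), sq_nonneg (u 2)])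
  · refine (sq_le_one_iff_abs_le_one _).1 ?_
    have e : ((√2)⁻¹ • (v + w)) 2 = (√2)⁻¹ * (v 2 + w 2) := by simp; ring
    rw [e, mul_pow, h2]
    nlinarith [sq_nonneg (v 2 - w 2), sq_nonneg (u 2)]
  · refine (sq_le_one_iff_abs_le_one _).1 ?_
    have e : ((√2)⁻¹ • (v - w)) 2 = (√2)⁻¹ * (v 2 - w 2) := by simp
    rw [e, mul_pow, h2]
    nlinarith [sq_nonneg (v 2 + w 2), sq_nonneg (u 2)]

theorem phi_lam (M : ℕ) (s : ℝ) (h : s ^ 2 < 2 * (M + 1)) : phi M s - s * phi1 M s = lam M s := by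
  have hpos : (0 : ℝ) < 2 * (M + 1) - s ^ 2 := by linarith
  have hp0 : 0 < √(2 * (M + 1) - s ^ 2) := Real.sqrt_pos.2 hpos
  have hp : √(2 * (M + 1) - s ^ 2) ≠ 0 := hp0.ne'
  have hq : √(2 * (M + 1) - s ^ 2) ^ 2 = 2 * (M + 1) - s ^ 2 := Real.sq_sqrt hpos.le
  have hid := P_id M (s / √(2 * (M + 1) - s ^ 2))
  unfold lam phi phi1
  have hX : 1 + (s / √(2 * (M + 1) - s ^ 2)) ^ 2 = 2 * (M + 1) / √(2 * (M + 1) - s ^ 2) ^ 2 := by
    field_simp
    rw [hq]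
    ring
  rw [hX] at hid
  rw [← hid]
  have hA : 2 * ((M : ℝ) + 1) = √(2 * (M + 1) - s ^ 2) ^ 2 + s ^ 2 := by rw [hq]; ring
  generalize P1 M (s / √(2 * (M + 1) - s ^ 2)) = Q
  generalize P M (s / √(2 * (M + 1) - s ^ 2)) = R
  generalize √(2 * ((M : ℝ) + 1) - s ^ 2) = p at hp hA ⊢
  rw [hA]
  field_simp
  ring

/-- the factor of `v_z w_z` in the matrix of `f` -/
noncomputable def kap (M : ℕ) (s : ℝ) : ℝ := -(2 * (M + 1) + 1) * lam M s / √(2 * (M + 1) - s ^ 2) ^ 2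

theorem kap_eq (M : ℕ) (s : ℝ) (h : s ^ 2 < 2 * (M + 1)) : kap M s * (2 * (M + 1) - s ^ 2) = -(2 * (M + 1) + 1) * lam M s := by
  have hpos : (0 : ℝ) < 2 * (M + 1) - s ^ 2 := by linarith
  have hq : √(2 * (M + 1) - s ^ 2) ^ 2 = 2 * (M + 1) - s ^ 2 := Real.sq_sqrt hpos.le
  unfold kap
  rw [hq]
  field_simp

theorem supp_radii (M : ℕ) (hM : 1 ≤ M) (u v : E3) (hu : |u 2| ≤ 1) (hv : |v 2| ≤ 1) :
    radii (supp (M + 1)) u v = kap M (u 2) * v 2 ^ 2 + lam M (u 2) := by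
  have h2 : u 2 ^ 2 ≤ 1 := (sq_le_one_iff_abs_le_one _).2 hu
  have h1 : (1 : ℝ) ≤ M := by exact_mod_cast hM
  have h3 := phi_lam M (u 2) (by linarith)
  have hs : supp (M + 1) u = phi M (u 2) := by
    unfold supp phi P
    push_cast
    rfl
  unfold radii
  rw [(supp_two M hM u v hu hv).hess, hs]
  unfold kap
  linear_combination h3

theorem harm_radii (M : ℕ) (hM : 1 ≤ M) (u v : E3) :
    radii (harm (M + 1)) u v = (2 * M + 1) * (2 * M) * (cc u ^ (2 * M - 1) * cc v ^ 2).re - 2 * M * (cc u ^ (2 * M - 1) * cc u ^ 2).re := by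
  have hk : 2 * (M + 1) - 1 = 2 * M + 1 := by omega
  have hs : harm (M + 1) u = (cc u ^ (2 * M + 1)).re := by
    unfold harm cc
    rw [hk]
  have h3 : cc u ^ (2 * M + 1) = cc u ^ (2 * M - 1) * cc u ^ 2 := by
    rw [← pow_add]
    congr 1
    omega
  unfold radii
  rw [(harm_two M hM u v).hess, hs, h3]
  have e : ((2 * M + 1 : ℕ) : ℂ) * ((2 * M : ℕ) : ℂ) * cc u ^ (2 * M - 1) * cc v ^ 2 - ((2 * M + 1 : ℕ) : ℂ) * (cc u ^ (2 * M - 1) * cc u ^ 2) =
      (((2 * M + 1) * (2 * M) : ℝ) : ℂ) * (cc u ^ (2 * M - 1) * cc v ^ 2) - ((2 * M + 1 : ℝ) : ℂ) * (cc u ^ (2 * M - 1) * cc u ^ 2) := by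
    push_cast
    ring
  rw [e, Complex.sub_re, Complex.re_ofReal_mul, Complex.re_ofReal_mul]
  ring

theorem add_radii (M : ℕ) (hM : 1 ≤ M) (u v : E3) (hu : |u 2| ≤ 1) (hv : |v 2| ≤ 1) :
    radii (fun x => supp (M + 1) x + harm (M + 1) x) u v = radii (supp (M + 1)) u v + radii (harm (M + 1)) u v := by
  unfold radii
  rw [((supp_two M hM u v hu hv).add (harm_two M hM u v)).hess, (supp_two M hM u v hu hv).hess, (harm_two M hM u v).hess]
  ring

/-! ### the mixed curvature -/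

theorem cc_smul_add (v w : E3) : cc ((√2)⁻¹ • (v + w)) = ((√2)⁻¹ : ℝ) * (cc v + cc w) := by
  unfold cc
  simp
  ring

theorem cc_smul_sub (v w : E3) : cc ((√2)⁻¹ • (v - w)) = ((√2)⁻¹ : ℝ) * (cc v - cc w) := by
  unfold cc
  simp
  ring

theorem half_sq : (√2)⁻¹ ^ 2 = (1 / 2 : ℝ) := by
  rw [inv_pow, Real.sq_sqrt (by norm_num)]
  norm_num

theorem supp_off (M : ℕ) (hM : 1 ≤ M) (u v w : E3) (h : Orthonormal ℝ ![u, v, w]) :
    (radii (supp (M + 1)) u ((√2)⁻¹ • (v + w)) - radii (supp (M + 1)) u ((√2)⁻¹ • (v - w))) / 2 = kap M (u 2) * (v 2 * w 2) := by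
  obtain ⟨n1, n2, n3, n4, n5⟩ := norms u v w h
  rw [supp_radii M hM u _ n1 n4, supp_radii M hM u _ n1 n5]
  have e1 : ((√2)⁻¹ • (v + w)) 2 = (√2)⁻¹ * (v 2 + w 2) := by simp; ring
  have e2 : ((√2)⁻¹ • (v - w)) 2 = (√2)⁻¹ * (v 2 - w 2) := by simp
  rw [e1, e2, mul_pow, mul_pow, half_sq]
  ring

theorem harm_off (M : ℕ) (hM : 1 ≤ M) (u v w : E3) :
    (radii (harm (M + 1)) u ((√2)⁻¹ • (v + w)) - radii (harm (M + 1)) u ((√2)⁻¹ • (v - w))) / 2 =
      (2 * M + 1) * (2 * M) * (cc u ^ (2 * M - 1) * (cc v * cc w)).re := by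
  rw [harm_radii M hM, harm_radii M hM, cc_smul_add, cc_smul_sub]
  have h2 : (((√2)⁻¹ : ℝ) : ℂ) ^ 2 = ((1 / 2 : ℝ) : ℂ) := by
    rw [← half_sq]
    push_cast
    rfl
  have e1 : cc u ^ (2 * M - 1) * ((((√2)⁻¹ : ℝ) : ℂ) * (cc v + cc w)) ^ 2 = ((1 / 2 : ℝ) : ℂ) * (cc u ^ (2 * M - 1) * (cc v + cc w) ^ 2) := by
    rw [mul_pow, h2]
    ring
  have e2 : cc u ^ (2 * M - 1) * ((((√2)⁻¹ : ℝ) : ℂ) * (cc v - cc w)) ^ 2 = ((1 / 2 : ℝ) : ℂ) * (cc u ^ (2 * M - 1) * (cc v - cc w) ^ 2) := by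
    rw [mul_pow, h2]
    ring
  rw [e1, e2, Complex.re_ofReal_mul, Complex.re_ofReal_mul]
  have e3 : cc u ^ (2 * M - 1) * (cc v + cc w) ^ 2 = cc u ^ (2 * M - 1) * (cc v - cc w) ^ 2 + ((4 : ℝ) : ℂ) * (cc u ^ (2 * M - 1) * (cc v * cc w)) := by
    push_cast
    ring
  rw [e3, Complex.add_re, Complex.re_ofReal_mul]
  ring

theorem mixed_zero (M : ℕ) (hM : 1 ≤ M) (u v w : E3) (h : Orthonormal ℝ ![u, v, w]) : mixed (supp (M + 1)) (harm (M + 1)) u v w = 0 := by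
  obtain ⟨n1, n2, n3, n4, n5⟩ := norms u v w h
  obtain ⟨f1, f2, f3⟩ := frame u v w h
  have hu2 : u 2 ^ 2 ≤ 1 := (sq_le_one_iff_abs_le_one _).2 n1
  have h1 : (1 : ℝ) ≤ M := by exact_mod_cast hM
  have hk := kap_eq M (u 2) (by linarith)
  have o1 := supp_off M hM u v w h
  have o2 := harm_off M hM u v w
  have o3 : (radii (fun x => supp (M + 1) x + harm (M + 1) x) u ((√2)⁻¹ • (v + w)) -
      radii (fun x => supp (M + 1) x + harm (M + 1) x) u ((√2)⁻¹ • (v - w))) / 2 =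
      kap M (u 2) * (v 2 * w 2) + (2 * M + 1) * (2 * M) * (cc u ^ (2 * M - 1) * (cc v * cc w)).re := by
    rw [add_radii M hM u _ n1 n4, add_radii M hM u _ n1 n5, ← o1, ← o2]
    ring
  unfold mixed curv
  rw [o1, o2, o3, add_radii M hM u v n1 n2, add_radii M hM u w n1 n3, supp_radii M hM u v n1 n2, supp_radii M hM u w n1 n3,
    harm_radii M hM u v, harm_radii M hM u w]
  have g1 : (cc u ^ (2 * M - 1) * cc v ^ 2).re + (cc u ^ (2 * M - 1) * cc w ^ 2).re = -(cc u ^ (2 * M - 1) * cc u ^ 2).re := by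
    rw [← Complex.add_re, ← Complex.neg_re]
    congr 1
    linear_combination (cc u ^ (2 * M - 1)) * f2
  have f4 : ((v 2 : ℂ) * cc w - (w 2 : ℂ) * cc v) ^ 2 = -cc u ^ 2 := by
    have f5 : ((u 2 : ℂ)) ^ 2 + (v 2 : ℂ) ^ 2 + (w 2 : ℂ) ^ 2 = 1 := by
      have f6 := congrArg (fun x : ℝ => (x : ℂ)) f1
      push_cast at f6
      exact f6
    linear_combination ((v 2 : ℂ) ^ 2 + (w 2 : ℂ) ^ 2) * f2 - ((v 2 : ℂ) * cc v + (w 2 : ℂ) * cc w - (u 2 : ℂ) * cc u) * f3 - cc u ^ 2 * f5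
  have g2 : v 2 ^ 2 * (cc u ^ (2 * M - 1) * cc w ^ 2).re + w 2 ^ 2 * (cc u ^ (2 * M - 1) * cc v ^ 2).re -
      2 * (v 2 * w 2) * (cc u ^ (2 * M - 1) * (cc v * cc w)).re = -(cc u ^ (2 * M - 1) * cc u ^ 2).re := by
    rw [← Complex.re_ofReal_mul, ← Complex.re_ofReal_mul, ← Complex.re_ofReal_mul, ← Complex.add_re, ← Complex.sub_re, ← Complex.neg_re]
    congr 1
    push_cast
    linear_combination (cc u ^ (2 * M - 1)) * f4
  generalize (cc u ^ (2 * M - 1) * cc v ^ 2).re = Lb at g1 g2 ⊢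
  generalize (cc u ^ (2 * M - 1) * cc w ^ 2).re = Lc at g1 g2 ⊢
  generalize (cc u ^ (2 * M - 1) * cc u ^ 2).re = La at g1 g2 ⊢
  generalize (cc u ^ (2 * M - 1) * (cc v * cc w)).re = Lbc at g1 g2 ⊢
  generalize kap M (u 2) = K at hk ⊢
  generalize lam M (u 2) = L at hk ⊢
  linear_combination (L * (2 * M + 1) * (2 * M) / 2) * g1 + (K * (2 * M + 1) * (2 * M) / 2) * g2 - (M * La) * hk - (M * K * La) * f1

/-! ### analyticity and the theorem -/

theorem supp_contDiffAt (M : ℕ) (hM : 1 ≤ M) (x : E3) (hx : |x 2| ≤ 1) : ContDiffAt ℝ ω (supp (M + 1)) x := by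
  have h2 : x 2 ^ 2 ≤ 1 := (sq_le_one_iff_abs_le_one _).2 hx
  have h1 : (1 : ℝ) ≤ M := by exact_mod_cast hM
  have hpos : (0 : ℝ) < 2 * ((M + 1 : ℕ) : ℝ) - x 2 ^ 2 := by push_cast; linarith
  have hp : √(2 * ((M + 1 : ℕ) : ℝ) - x 2 ^ 2) ≠ 0 := (Real.sqrt_pos.2 hpos).ne'
  have c0 : ContDiffAt ℝ ω (fun y : E3 => y 2) x := by
    exact (EuclideanSpace.proj (2 : Fin 3) : E3 →L[ℝ] ℝ).contDiff.contDiffAt
  have c1 : ContDiffAt ℝ ω (fun y : E3 => √(2 * ((M + 1 : ℕ) : ℝ) - y 2 ^ 2)) x := by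
    exact (contDiffAt_const.sub (c0.pow 2)).sqrt hpos.ne'
  have c2 : ContDiffAt ℝ ω (fun y : E3 => y 2 / √(2 * ((M + 1 : ℕ) : ℝ) - y 2 ^ 2)) x := c0.div c1 hp
  unfold supp
  refine c1.mul ?_
  refine ContDiffAt.sum fun j _ => ?_
  exact contDiffAt_const.mul (c2.pow _)

theorem harm_contDiff (m : ℕ) : ContDiff ℝ ω (harm m) := by
  have c0 : ContDiff ℝ ω (fun y : E3 => (y 0 : ℂ)) :=
    Complex.ofRealCLM.contDiff.comp (EuclideanSpace.proj (0 : Fin 3) : E3 →L[ℝ] ℝ).contDiff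
  have c1 : ContDiff ℝ ω (fun y : E3 => (y 1 : ℂ)) :=
    Complex.ofRealCLM.contDiff.comp (EuclideanSpace.proj (1 : Fin 3) : E3 →L[ℝ] ℝ).contDiff
  unfold harm
  exact Complex.reCLM.contDiff.comp ((c0.add (c1.mul contDiff_const)).pow _)

theorem coord_le (u : S2) : |(u : E3) 2| ≤ 1 := by
  have h1 : ‖(u : E3)‖ = 1 := by
    have := u.2
    rwa [mem_sphere_zero_iff_norm] at this
  have h2 := PiLp.norm_apply_le (u : E3) 2
  rw [h1] at h2
  exact h2

theorem supp_analytic (M : ℕ) (hM : 1 ≤ M) : ContMDiff (𝓡 2) 𝓘(ℝ, ℝ) ω (fun u : S2 => supp (M + 1) u) := by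
  intro u
  have h1 : ContMDiffAt 𝓘(ℝ, E3) 𝓘(ℝ, ℝ) ω (supp (M + 1)) (u : E3) := (supp_contDiffAt M hM u (coord_le u)).contMDiffAt
  have : Fact (Module.finrank ℝ E3 = 2 + 1) := ⟨by simp⟩
  exact h1.comp u (contMDiff_coe_sphere u)

theorem harm_analytic (m : ℕ) : ContMDiff (𝓡 2) 𝓘(ℝ, ℝ) ω (fun u : S2 => harm m u) := by
  have : Fact (Module.finrank ℝ E3 = 2 + 1) := ⟨by simp⟩
  exact (harm_contDiff m).contMDiff.comp contMDiff_coe_sphere

theorem result (m : ℕ) (hm : 2 ≤ m) :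
    ContMDiff (𝓡 2) 𝓘(ℝ, ℝ) ω (fun u : S2 => supp m u) ∧
    (¬ ∃ a : E3, ∀ u : S2, supp m u = ⟪a, (u : E3)⟫_ℝ) ∧
    ContMDiff (𝓡 2) 𝓘(ℝ, ℝ) ω (fun u : S2 => harm m u) ∧
    (∀ u v w : E3, Orthonormal ℝ ![u, v, w] → mixed (supp m) (harm m) u v w = 0) ∧
    ∃ u v w : E3, Orthonormal ℝ ![u, v, w] ∧ curv (harm m) u v w ≠ 0 := by
  obtain ⟨M, rfl⟩ : ∃ M, m = M + 1 := ⟨m - 1, by omega⟩
  have hM : 1 ≤ M := by omega
  refine ⟨supp_analytic M hM, ?_, harm_analytic _, mixed_zero M hM, ?_⟩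
  · rintro ⟨a, ha⟩
    have n0 : ‖(EuclideanSpace.single 0 1 : E3)‖ = 1 := by simp
    have h1 := ha ⟨EuclideanSpace.single 0 1, by simp⟩
    have h2 := ha ⟨-EuclideanSpace.single 0 1, by simp⟩
    have e1 : supp (M + 1) (-EuclideanSpace.single 0 1 : E3) = supp (M + 1) (EuclideanSpace.single 0 1 : E3) := by
      unfold supp
      simp
    have e2 : supp (M + 1) (EuclideanSpace.single 0 1 : E3) = √(2 * (M + 1)) := by
      unfold supp
      rw [Finset.sum_range_succ']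
      simp
    simp only [inner_neg_right] at h2
    rw [e1] at h2
    have h3 : supp (M + 1) (EuclideanSpace.single 0 1 : E3) = 0 := by linarith
    rw [e2] at h3
    have h4 : (0 : ℝ) < √(2 * (M + 1)) := Real.sqrt_pos.2 (by positivity)
    linarith
  · refine ⟨EuclideanSpace.single 0 1, EuclideanSpace.single 1 1, EuclideanSpace.single 2 1, ?_, ?_⟩
    · rw [orthonormal_iff_ite]
      intro i j
      fin_cases i <;> fin_cases j <;> simp [EuclideanSpace.inner_single_left]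
    · unfold curv
      rw [harm_off M hM, harm_radii M hM, harm_radii M hM]
      have c0 : cc (EuclideanSpace.single 0 1 : E3) = 1 := by unfold cc; simp
      have c1 : cc (EuclideanSpace.single 1 1 : E3) = Complex.I := by unfold cc; simp
      have c2 : cc (EuclideanSpace.single 2 1 : E3) = 0 := by unfold cc; simp
      rw [c0, c1, c2]
      simp
      have h1 : (1 : ℝ) ≤ M := by exact_mod_cast hM
      constructor
      · nlinarith
      · linarith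

end Pool.Agent.Results.MP_abe51b_gt.NonRigidAnalytic
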